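import Pool.Agent.Helper64.Rig.Basics

/-!
# The key lemma (MP_148db9_ag, packet W)
-/

namespace Pool.Agent.Helper64.Rig

open MvPolynomial Module

set_option linter.unusedSectionVars false

namespace PW

variable {K : Type} [Field K] [Algebra ℂ K] {ζ : ℂ} {x : Jx → K}

/-! ## Linear algebra -/

theorem finrank_le_map_add {F : Type} [AddCommGroup F] [Module ℂ F] (E : K →ₗ[ℂ] F)
    (N U : Submodule ℂ K) [FiniteDimensional ℂ N] [FiniteDimensional ℂ U]
    (hU : ∀ v ∈ N, E v = 0 → v ∈ U) :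
    finrank ℂ N ≤ finrank ℂ (N.map E) + finrank ℂ U := by
  have h1 := LinearMap.finrank_range_add_finrank_ker (E.domRestrict N)
  rw [LinearMap.range_domRestrict] at h1
  have h2 : finrank ℂ (LinearMap.ker (E.domRestrict N)) ≤ finrank ℂ U := by
    rw [← Submodule.finrank_map_subtype_eq N (LinearMap.ker (E.domRestrict N))]
    apply Submodule.finrank_mono
    rintro _ ⟨v, hv, rfl⟩
    exact hU _ v.2 (by simpa using hv)
  omega

/-- The simultaneous evaluation at finitely many points, extended to `K`. -/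
theorem exists_E (hKer : StmtKer) (h : Cov ζ x) (Pt : Fin 5 → Fin 3 → ℂ)
    (hPt : ∀ i, eval (Pt i) FF = 0) :
    ∃ E : K →ₗ[ℂ] (Fin 5 → ℂ), ∀ (G : MvPolynomial (Fin 3) ℂ) (i : Fin 5),
      E (aeval (pr x) G) i = eval (Pt i) G := by
  let L : MvPolynomial (Fin 3) ℂ →ₗ[ℂ] K := (aeval (pr x) : MvPolynomial (Fin 3) ℂ →ₐ[ℂ] K).toLinearMap
  let T : MvPolynomial (Fin 3) ℂ →ₗ[ℂ] (Fin 5 → ℂ) :=
    LinearMap.pi fun i => (aeval (Pt i) : MvPolynomial (Fin 3) ℂ →ₐ[ℂ] ℂ).toLinearMap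
  have hT : ∀ G i, T G i = eval (Pt i) G := by
    intro G i
    simp [T, aeval_eq_eval]
  have hLT : LinearMap.ker L ≤ LinearMap.ker T := by
    intro G hG
    have hG' : aeval (pr x) G = 0 := hG
    obtain ⟨H, rfl⟩ := (hKer K ζ x h).1 G hG'
    rw [LinearMap.mem_ker]
    funext i
    rw [hT, map_mul, hPt i, zero_mul]
    rfl
  let e := L.quotKerEquivRange
  let f : LinearMap.range L →ₗ[ℂ] (Fin 5 → ℂ) :=
    ((LinearMap.ker L).liftQ T hLT).comp e.symm.toLinearMap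
  obtain ⟨E, hE⟩ := f.exists_extend
  refine ⟨E, fun G i => ?_⟩
  have h1 : E (aeval (pr x) G) = f ⟨L G, LinearMap.mem_range_self L G⟩ := by
    rw [← hE]
    rfl
  have h2 : e.symm ⟨L G, LinearMap.mem_range_self L G⟩ = (LinearMap.ker L).mkQ G := by
    rw [LinearEquiv.symm_apply_eq]
    rfl
  rw [h1]
  simp only [f, LinearMap.comp_apply, LinearEquiv.coe_coe]
  rw [h2]
  simp only [Submodule.mkQ_apply, Submodule.liftQ_apply]
  exact hT G i

theorem zeta_sum (hζ : IsPrimitiveRoot ζ 5) {e : ℕ} (he : e ≤ 3) :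
    ∑ i : Fin 5, ζ ^ (i : ℕ) * (ζ ^ (i : ℕ)) ^ e = 0 := by
  have h1 : IsPrimitiveRoot (ζ ^ (e + 1)) 5 := by
    apply hζ.pow_of_coprime
    interval_cases e <;> decide
  have h2 := h1.geom_sum_eq_zero (by norm_num)
  rw [← Fin.sum_univ_eq_sum_range (fun i => (ζ ^ (e + 1)) ^ i)] at h2
  rw [← h2]
  refine Finset.sum_congr rfl fun i _ => ?_
  rw [← pow_mul, ← pow_add, ← pow_mul]
  ring_nf

/-! ## The evaluations -/

/-- The data of the evaluation at the five points of the line `p 1 = c p 2`. -/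
structure Ev (ζ : ℂ) (x : Jx → K) (ξ c : ℂ) (E : K →ₗ[ℂ] (Fin 5 → ℂ)) : Prop where
  ne : ξ ≠ 0
  eq : ξ ^ 5 + c ^ 5 + 1 = 0
  ev : ∀ (G : MvPolynomial (Fin 3) ℂ) (i : Fin 5),
      E (aeval (pr x) G) i = eval ![ζ ^ (i : ℕ) * ξ, c, 1] G

variable {ξ c : ℂ} {E : K →ₗ[ℂ] (Fin 5 → ℂ)}

theorem Ev.mul (hE : Ev ζ x ξ c E) {a a' : K} (ha : a ∈ AB x) (ha' : a' ∈ AB x) (i : Fin 5) :
    E (a * a') i = E a i * E a' i := by
  obtain ⟨G, rfl⟩ := mem_AB.1 ha
  obtain ⟨G', rfl⟩ := mem_AB.1 ha'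
  rw [← map_mul, hE.ev, hE.ev, hE.ev, map_mul]

theorem Ev.p0 (hE : Ev ζ x ξ c E) (i : Fin 5) : E (pr x 0) i = ζ ^ (i : ℕ) * ξ := by
  have := hE.ev (X 0) i
  simpa using this

theorem Ev.p1 (hE : Ev ζ x ξ c E) (i : Fin 5) : E (pr x 1) i = c := by
  have := hE.ev (X 1) i
  simpa using this

theorem Ev.p2 (hE : Ev ζ x ξ c E) (i : Fin 5) : E (pr x 2) i = 1 := by
  have := hE.ev (X 2) i
  simpa using this

theorem Ev.one (hE : Ev ζ x ξ c E) (i : Fin 5) : E 1 i = 1 := by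
  have := hE.ev 1 i
  simpa using this

theorem Ev.F1 (hE : Ev ζ x ξ c E) (hLine : StmtLine) (h : Cov ζ x) {q : ℕ} {a : K}
    (ha : a ∈ AA x (q + 1)) (h0 : E a = 0) :
    ∃ a' ∈ AA x q, a = (pr x 1 - algebraMap ℂ K c * pr x 2) * a' := by
  obtain ⟨G, hG, rfl⟩ := mem_AA.1 ha
  obtain ⟨G', hG', hd⟩ := hLine ζ ξ c h.prim hE.ne hE.eq q G hG (fun i => by
    rw [← hE.ev, h0]; rfl)
  refine ⟨aeval (pr x) G', mem_AA.2 ⟨G', hG', rfl⟩, ?_⟩
  obtain ⟨H, hH⟩ := hd
  have := congrArg (aeval (pr x)) hH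
  rw [map_mul, aeval_FF h, zero_mul, map_sub, map_mul, map_sub, map_mul, aeval_X, aeval_X,
    aeval_C] at this
  exact sub_eq_zero.1 this

theorem Ev.F2 (hE : Ev ζ x ξ c E) (h : Cov ζ x) {a : K} (ha : a ∈ AA x 3) :
    ∑ i : Fin 5, ζ ^ (i : ℕ) * E a i = 0 := by
  obtain ⟨G, hG, rfl⟩ := mem_AA.1 ha
  simp only [hE.ev]
  simp only [eval_eq', Finset.mul_sum]
  rw [Finset.sum_comm]
  refine Finset.sum_eq_zero fun m hm => ?_
  have hd := degree_of_homog hG (mem_support_iff.1 hm)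
  rw [Finsupp.degree_eq_sum, Fin.sum_univ_three] at hd
  have h1 : ∀ i : Fin 5, ζ ^ (i : ℕ) * (coeff m G * ∏ k, (![ζ ^ (i : ℕ) * ξ, c, 1] : Fin 3 → ℂ) k ^ m k) =
      (coeff m G * ξ ^ m 0 * c ^ m 1) * (ζ ^ (i : ℕ) * (ζ ^ (i : ℕ)) ^ m 0) := by
    intro i
    rw [Fin.prod_univ_three]
    simp only [Matrix.cons_val_zero, Matrix.cons_val_one, Matrix.cons_val]
    rw [mul_pow, one_pow]
    ring
  simp only [h1]
  rw [← Finset.mul_sum, zeta_sum h.prim (by omega), mul_zero]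

theorem Ev.u_ne (_hE : Ev ζ x ξ c E) (h : Cov ζ x) : pr x 1 - algebraMap ℂ K c * pr x 2 ≠ 0 := by
  intro h0
  have := indep_lin h (G := X 0 - C c * X 1) (by
    simp only [map_sub, map_mul, aeval_X, aeval_C, Matrix.cons_val_zero, Matrix.cons_val_one]
    exact h0)
  have h3 := congrArg (eval ![1, 0]) this
  simp at h3

/-! ## The modules of multipliers -/

/-- The elements `g` with `g * b (q + 1) ⊆ AA (q + m)`. -/
def MM (x : Jx → K) (b : ℕ → Submodule ℂ K) (m : ℕ) : Submodule ℂ K where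
  carrier := {g | ∀ q, ∀ v ∈ b (q + 1), g * v ∈ AA x (q + m)}
  add_mem' {g g'} hg hg' q v hv := by
    rw [add_mul]
    exact Submodule.add_mem _ (hg q v hv) (hg' q v hv)
  zero_mem' q v _ := by
    rw [zero_mul]
    exact Submodule.zero_mem _
  smul_mem' r g hg q v hv := by
    rw [smul_mul_assoc]
    exact Submodule.smul_mem _ _ (hg q v hv)

theorem mem_MM {b : ℕ → Submodule ℂ K} {m : ℕ} {g : K} :
    g ∈ MM x b m ↔ ∀ q, ∀ v ∈ b (q + 1), g * v ∈ AA x (q + m) := Iff.rfl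

/-- The hypotheses of the key lemma, with the chosen line and the chosen element `b₀`. -/
structure Dat (ζ : ℂ) (x : Jx → K) (ξ c : ℂ) (E : K →ₗ[ℂ] (Fin 5 → ℂ)) (b : ℕ → Submodule ℂ K)
    (b₀ : K) (Q : ℕ) : Prop where
  cov : Cov ζ x
  ev : Ev ζ x ξ c E
  le : ∀ q, b q ≤ AA x q
  mul : ∀ q, ∀ l ∈ AA x 1, ∀ v ∈ b q, l * v ∈ b (q + 1)
  one : b 1 = ⊥
  four : 4 ≤ Q
  dim : 5 * Q ≤ finrank ℂ (b Q) + 10
  good : ∀ q, 1 ≤ q → ∀ v ∈ AA x q,
      (pr x 1 - algebraMap ℂ K c * pr x 2) * v ∈ b (q + 1) → v ∈ b q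
  mem : b₀ ∈ b Q
  ne : b₀ ≠ 0
  ene : ∀ i, E b₀ i ≠ 0

variable {b : ℕ → Submodule ℂ K} {b₀ : K} {Q : ℕ}

theorem Dat.memAB (D : Dat ζ x ξ c E b b₀ Q) : b₀ ∈ AB x := AA_le_AB (D.le Q D.mem)

/-- The normalised evaluation. -/
noncomputable def EvL (E : K →ₗ[ℂ] (Fin 5 → ℂ)) (b₀ : K) : K →ₗ[ℂ] (Fin 5 → ℂ) where
  toFun g := fun i => E (g * b₀) i / E b₀ i
  map_add' g g' := by
    funext i
    simp only [add_mul, map_add, Pi.add_apply, add_div]
  map_smul' r g := by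
    funext i
    simp only [smul_mul_assoc, map_smul, Pi.smul_apply, smul_eq_mul, RingHom.id_apply, mul_div_assoc]

theorem EvL_apply (g : K) (i : Fin 5) : EvL E b₀ g i = E (g * b₀) i / E b₀ i := rfl

theorem Dat.memMM (D : Dat ζ x ξ c E b b₀ Q) {m : ℕ} {g : K} (hg : g ∈ MM x b m) :
    g * b₀ ∈ AA x (Q - 1 + m) := by
  have h4 := D.four
  refine hg (Q - 1) b₀ ?_
  have : Q - 1 + 1 = Q := by omega
  rw [this]
  exact D.mem

theorem Dat.ev_mul (D : Dat ζ x ξ c E b b₀ Q) {m : ℕ} {g : K} (hg : g ∈ MM x b m) {q : ℕ} {v : K}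
    (hv : v ∈ b (q + 1)) (i : Fin 5) : E (g * v) i = EvL E b₀ g i * E v i := by
  have h1 : g * v ∈ AB x := AA_le_AB (hg q v hv)
  have h2 : g * b₀ ∈ AB x := AA_le_AB (D.memMM hg)
  have h3 : v ∈ AB x := AA_le_AB (D.le _ hv)
  have h4 : E (g * v) i * E b₀ i = E (g * b₀) i * E v i := by
    rw [← D.ev.mul h1 D.memAB, ← D.ev.mul h2 h3]
    have e : g * v * b₀ = g * b₀ * v := by ring
    rw [e]
  rw [EvL_apply, div_mul_eq_mul_div, eq_div_iff (D.ene i), h4]

theorem Dat.inj (D : Dat ζ x ξ c E b b₀ Q) :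
    Function.Injective (LinearMap.mulRight ℂ b₀ : K →ₗ[ℂ] K) := by
  intro a a' h
  simp only [LinearMap.mulRight_apply] at h
  exact mul_right_cancel₀ D.ne h

theorem Dat.fdMM (D : Dat ζ x ξ c E b b₀ Q) (hDim : StmtDim) (m : ℕ) :
    FiniteDimensional ℂ (MM x b m) := by
  have := (hDim K ζ x D.cov).1 (Q - 1 + m)
  let f : MM x b m →ₗ[ℂ] AA x (Q - 1 + m) :=
    LinearMap.codRestrict _ ((LinearMap.mulRight ℂ b₀).comp (MM x b m).subtype)
      fun g => D.memMM g.2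
  refine FiniteDimensional.of_injective f ?_
  intro a a' h
  have h' := congrArg Subtype.val h
  exact Subtype.ext (D.inj h')

theorem Dat.fdb (D : Dat ζ x ξ c E b b₀ Q) (hDim : StmtDim) (q : ℕ) :
    FiniteDimensional ℂ (b q) := by
  have := (hDim K ζ x D.cov).1 q
  exact Submodule.finiteDimensional_of_le (D.le q)

/-! ### Pairing -/

theorem Dat.pairing (D : Dat ζ x ξ c E b b₀ Q) (hPair : StmtPair) {m q : ℕ} (hq : q + m = 3) :
    finrank ℂ ((MM x b m).map (EvL E b₀)) + finrank ℂ ((b (q + 1)).map E) ≤ 5 := by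
  apply hPair ζ D.cov.prim
  rintro _ ⟨g, hg, rfl⟩ _ ⟨v, hv, rfl⟩
  have h1 := hg q v hv
  rw [hq] at h1
  have h2 := D.ev.F2 D.cov h1
  rw [← h2]
  exact Finset.sum_congr rfl fun i _ => by rw [D.ev_mul hg hv]

/-! ### Dimensions -/

theorem finrank_mul (u : K) (N : Submodule ℂ K) [FiniteDimensional ℂ N] :
    finrank ℂ (N.map (LinearMap.mulLeft ℂ u)) ≤ finrank ℂ N :=
  Submodule.finrank_map_le _ _

theorem Dat.dimW (D : Dat ζ x ξ c E b b₀ Q) (hLine : StmtLine) (hDim : StmtDim) {q : ℕ}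
    (hq : 1 ≤ q) :
    finrank ℂ (b (q + 1)) ≤ finrank ℂ ((b (q + 1)).map E) + finrank ℂ (b q) := by
  have := D.fdb hDim q
  have := D.fdb hDim (q + 1)
  refine (finrank_le_map_add E (b (q + 1))
    ((b q).map (LinearMap.mulLeft ℂ (pr x 1 - algebraMap ℂ K c * pr x 2))) ?_).trans
    (Nat.add_le_add_left (finrank_mul _ _) _)
  intro v hv h0
  obtain ⟨a', ha', rfl⟩ := D.ev.F1 hLine D.cov (D.le _ hv) h0
  exact ⟨a', D.good q hq a' ha' hv, rfl⟩

theorem Dat.dimW5 (W : Submodule ℂ (Fin 5 → ℂ)) : finrank ℂ W ≤ 5 := by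
  have := Submodule.finrank_le W
  simpa using this

theorem Dat.beta4 (D : Dat ζ x ξ c E b b₀ Q) (hLine : StmtLine) (hDim : StmtDim) :
    10 ≤ finrank ℂ (b 4) := by
  have key : ∀ n, finrank ℂ (b (4 + n)) ≤ finrank ℂ (b 4) + 5 * n := by
    intro n
    induction n with
    | zero => simp
    | succ n ih =>
      have h1 := D.dimW hLine hDim (q := 4 + n) (by omega)
      have h2 := Dat.dimW5 ((b (4 + n + 1)).map E)
      have : 4 + (n + 1) = 4 + n + 1 := by omega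
      rw [this]
      omega
  have h1 := key (Q - 4)
  have h4 := D.four
  have h5 : 4 + (Q - 4) = Q := by omega
  rw [h5] at h1
  have h2 := D.dim
  omega

theorem Dat.sumW (D : Dat ζ x ξ c E b b₀ Q) (hLine : StmtLine) (hDim : StmtDim) :
    10 ≤ finrank ℂ ((b (1 + 1)).map E) + finrank ℂ ((b (2 + 1)).map E) +
      finrank ℂ ((b (3 + 1)).map E) := by
  have h4 := D.beta4 hLine hDim
  have h1 := D.dimW hLine hDim (q := 1) (by omega)
  have h2 := D.dimW hLine hDim (q := 2) (by omega)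
  have h3 := D.dimW hLine hDim (q := 3) (by omega)
  have h0 : finrank ℂ (b 1) = 0 := by rw [D.one, finrank_bot]
  have e2 : finrank ℂ (b (1 + 1)) = finrank ℂ (b 2) := rfl
  have e3 : finrank ℂ (b (2 + 1)) = finrank ℂ (b 3) := rfl
  have e4 : finrank ℂ (b (3 + 1)) = finrank ℂ (b 4) := rfl
  omega

theorem Dat.sumV (D : Dat ζ x ξ c E b b₀ Q) (hLine : StmtLine) (hDim : StmtDim)
    (hPair : StmtPair) :
    finrank ℂ ((MM x b 0).map (EvL E b₀)) + finrank ℂ ((MM x b 1).map (EvL E b₀)) +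
      finrank ℂ ((MM x b 2).map (EvL E b₀)) ≤ 5 := by
  have h1 := D.sumW hLine hDim
  have h2 := D.pairing hPair (m := 0) (q := 3) rfl
  have h3 := D.pairing hPair (m := 1) (q := 2) rfl
  have h4 := D.pairing hPair (m := 2) (q := 1) rfl
  omega

/-! ### Growth -/

theorem MM_mul {m : ℕ} {g l : K} (hg : g ∈ MM x b m) (hl : l ∈ AA x 1) : l * g ∈ MM x b (m + 1) := by
  intro q v hv
  have := AA_mul hl (hg q v hv)
  rw [mul_assoc]
  have e : q + (m + 1) = 1 + (q + m) := by omega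
  rw [e]
  exact this

theorem Dat.ev_p2 (D : Dat ζ x ξ c E b b₀ Q) {m : ℕ} {g : K} (hg : g ∈ MM x b m) :
    EvL E b₀ (pr x 2 * g) = EvL E b₀ g := by
  funext i
  rw [EvL_apply, EvL_apply, mul_assoc, D.ev.mul (AA_le_AB (pr_mem_AA 2)) (AA_le_AB (D.memMM hg)),
    D.ev.p2, one_mul]

theorem Dat.ev_p0 (D : Dat ζ x ξ c E b b₀ Q) {m : ℕ} {g : K} (hg : g ∈ MM x b m) (i : Fin 5) :
    EvL E b₀ (pr x 0 * g) i = ξ * (ζ ^ (i : ℕ) * EvL E b₀ g i) := by
  rw [EvL_apply, EvL_apply, mul_assoc, D.ev.mul (AA_le_AB (pr_mem_AA 0)) (AA_le_AB (D.memMM hg)),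
    D.ev.p0]
  ring

theorem Dat.grow_le (D : Dat ζ x ξ c E b b₀ Q) (m : ℕ) :
    (MM x b m).map (EvL E b₀) ≤ (MM x b (m + 1)).map (EvL E b₀) := by
  rintro _ ⟨g, hg, rfl⟩
  exact ⟨pr x 2 * g, MM_mul hg (pr_mem_AA 2), D.ev_p2 hg⟩

theorem Dat.grow_D (D : Dat ζ x ξ c E b b₀ Q) (m : ℕ) :
    ∀ v ∈ (MM x b m).map (EvL E b₀),
      (fun i : Fin 5 => ζ ^ (i : ℕ) * v i) ∈ (MM x b (m + 1)).map (EvL E b₀) := by
  rintro _ ⟨g, hg, rfl⟩
  refine ⟨ξ⁻¹ • (pr x 0 * g), Submodule.smul_mem _ _ (MM_mul hg (pr_mem_AA 0)), ?_⟩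
  rw [map_smul]
  funext i
  rw [Pi.smul_apply, smul_eq_mul, D.ev_p0 hg, inv_mul_cancel_left₀ D.ev.ne]

theorem Dat.one_mem (D : Dat ζ x ξ c E b b₀ Q) : (1 : K) ∈ MM x b 1 := by
  intro q v hv
  rw [one_mul]
  exact D.le _ hv

theorem Dat.one_memV (D : Dat ζ x ξ c E b b₀ Q) :
    (fun _ => 1) ∈ (MM x b 1).map (EvL E b₀) := by
  refine ⟨1, D.one_mem, ?_⟩
  funext i
  rw [EvL_apply, one_mul, div_self (D.ene i)]

theorem Dat.growth (D : Dat ζ x ξ c E b b₀ Q) (hLine : StmtLine) (hDim : StmtDim)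
    (hPair : StmtPair) (hGrow : StmtGrow) :
    (MM x b 0).map (EvL E b₀) = ⊥ ∧ finrank ℂ ((MM x b 1).map (EvL E b₀)) ≤ 2 ∧
      (finrank ℂ ((MM x b 1).map (EvL E b₀)) = 2 → finrank ℂ ((MM x b 2).map (EvL E b₀)) = 3) :=
  hGrow ζ D.cov.prim _ _ _ (D.grow_le 0) (D.grow_le 1) (D.grow_D 0) (D.grow_D 1) D.one_memV
    (D.sumV hLine hDim hPair)

/-! ### The kernels -/

theorem Dat.ker (D : Dat ζ x ξ c E b b₀ Q) (hLine : StmtLine) {m : ℕ} {g : K}
    (hg : g ∈ MM x b (m + 1)) (h0 : EvL E b₀ g = 0) :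
    g / (pr x 1 - algebraMap ℂ K c * pr x 2) ∈ MM x b m := by
  intro q v hv
  have h1 := hg q v hv
  have h2 : E (g * v) = 0 := by
    funext i
    rw [D.ev_mul hg hv, h0]
    simp
  obtain ⟨a', ha', h3⟩ := D.ev.F1 hLine D.cov (q := q + m) h1 h2
  rw [div_mul_eq_mul_div, h3, mul_div_cancel_left₀ _ (D.ev.u_ne D.cov)]
  exact ha'

theorem Dat.t_mul (D : Dat ζ x ξ c E b b₀ Q) (hLine : StmtLine)
    (hV0 : (MM x b 0).map (EvL E b₀) = ⊥) {g : K} (hg : g ∈ MM x b 0) :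
    (pr x 2 / (pr x 1 - algebraMap ℂ K c * pr x 2)) * g ∈ MM x b 0 := by
  have hE0 : EvL E b₀ g = 0 := by
    have : EvL E b₀ g ∈ (MM x b 0).map (EvL E b₀) := ⟨g, hg, rfl⟩
    rw [hV0] at this
    exact this
  intro q v hv
  rcases Nat.eq_zero_or_pos q with rfl | hq
  · rw [zero_add, D.one] at hv
    have : v = 0 := hv
    rw [this, mul_zero]
    exact Submodule.zero_mem _
  · obtain ⟨q', rfl⟩ : ∃ q', q = q' + 1 := ⟨q - 1, by omega⟩
    have h1 := hg _ v hv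
    have h2 : E (g * v) = 0 := by
      funext i
      rw [D.ev_mul hg hv, hE0]
      simp
    obtain ⟨a', ha', h3⟩ := D.ev.F1 hLine D.cov (q := q') h1 h2
    have h4 : pr x 2 / (pr x 1 - algebraMap ℂ K c * pr x 2) * g * v = pr x 2 * a' := by
      rw [mul_assoc, h3, ← mul_assoc, div_mul_cancel₀ _ (D.ev.u_ne D.cov)]
    rw [h4]
    have h5 := AA_mul (pr_mem_AA (x := x) 2) ha'
    have e : q' + 1 + 0 = 1 + q' := by omega
    rw [e]
    exact h5

theorem Dat.M0 (D : Dat ζ x ξ c E b b₀ Q) (hLine : StmtLine) (hDim : StmtDim)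
    (hV0 : (MM x b 0).map (EvL E b₀) = ⊥) : MM x b 0 = ⊥ := by
  by_contra hne
  have := D.fdMM hDim 0
  set t := pr x 2 / (pr x 1 - algebraMap ℂ K c * pr x 2) with ht
  have hint : IsIntegral ℂ t := by
    refine isIntegral_of_smul_mem_submodule (M := K) (MM x b 0) hne ?_ t ?_
    · exact Submodule.fg_iff_finiteDimensional _ |>.2 inferInstance
    · intro g hg
      rw [smul_eq_mul]
      exact D.t_mul hLine hV0 hg
  have h3 : (minpoly ℂ t).degree = 1 :=
    IsAlgClosed.degree_eq_one_of_irreducible ℂ (minpoly.irreducible hint)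
  obtain ⟨c', hc'⟩ := minpoly.mem_range_of_degree_eq_one ℂ t h3
  have hu := D.ev.u_ne D.cov
  have h4 : pr x 2 = algebraMap ℂ K c' * (pr x 1 - algebraMap ℂ K c * pr x 2) := by
    rw [hc', ht, div_mul_cancel₀ _ hu]
  have h5 := indep_lin D.cov (G := C c' * X 0 - C (c' * c + 1) * X 1) (by
    simp only [map_sub, map_mul, aeval_X, aeval_C, Matrix.cons_val_zero, Matrix.cons_val_one,
      map_add, map_one]
    linear_combination -h4)
  have h6 := congrArg (eval ![1, 0]) h5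
  have h7 := congrArg (eval ![0, 1]) h5
  simp at h6 h7
  rw [h6] at h7
  simp at h7

theorem Dat.M1 (D : Dat ζ x ξ c E b b₀ Q) (hLine : StmtLine) (hDim : StmtDim)
    (hM0 : MM x b 0 = ⊥) :
    finrank ℂ (MM x b 1) ≤ finrank ℂ ((MM x b 1).map (EvL E b₀)) := by
  have := D.fdMM hDim 1
  have := finrank_le_map_add (EvL E b₀) (MM x b 1) ⊥ (by
    intro g hg h0
    have h1 := D.ker hLine (m := 0) hg h0
    rw [hM0] at h1
    have h2 : g / (pr x 1 - algebraMap ℂ K c * pr x 2) = 0 := h1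
    rw [div_eq_zero_iff] at h2
    rcases h2 with h2 | h2
    · exact h2
    · exact absurd h2 (D.ev.u_ne D.cov))
  rwa [finrank_bot, add_zero] at this

theorem Dat.M2 (D : Dat ζ x ξ c E b b₀ Q) (hLine : StmtLine) (hDim : StmtDim) :
    finrank ℂ (MM x b 2) ≤ finrank ℂ ((MM x b 2).map (EvL E b₀)) + finrank ℂ (MM x b 1) := by
  have := D.fdMM hDim 1
  have := D.fdMM hDim 2
  refine (finrank_le_map_add (EvL E b₀) (MM x b 2)
    ((MM x b 1).map (LinearMap.mulLeft ℂ (pr x 1 - algebraMap ℂ K c * pr x 2))) ?_).trans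
    (Nat.add_le_add_left (finrank_mul _ _) _)
  intro g hg h0
  refine ⟨g / (pr x 1 - algebraMap ℂ K c * pr x 2), D.ker hLine (m := 1) hg h0, ?_⟩
  rw [LinearMap.mulLeft_apply, mul_div_cancel₀ _ (D.ev.u_ne D.cov)]

theorem Dat.main (D : Dat ζ x ξ c E b b₀ Q) (hLine : StmtLine) (hDim : StmtDim)
    (hPair : StmtPair) (hGrow : StmtGrow) {h : K} (hh : h ∈ MM x b 1)
    (hnc : ∀ c : ℂ, h ≠ algebraMap ℂ K c) :
    (∃ l ∈ AA x 1, l ≠ 0 ∧ l * h ∈ AA x 1) ∧
      ∀ h' ∈ MM x b 1, ∃ α β : ℂ, h' = algebraMap ℂ K α + algebraMap ℂ K β * h := by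
  obtain ⟨hV0, hV1, hV2⟩ := D.growth hLine hDim hPair hGrow
  have hM0 := D.M0 hLine hDim hV0
  have hM1 := D.M1 hLine hDim hM0
  have hM2 := D.M2 hLine hDim
  have := D.fdMM hDim 1
  have := D.fdMM hDim 2
  have hli : LinearIndependent ℂ ![(1 : K), h] := by
    rw [LinearIndependent.pair_iff]
    intro s t hst
    by_cases ht : t = 0
    · subst ht
      simp only [zero_smul, add_zero, smul_eq_zero, one_ne_zero, or_false] at hst
      exact ⟨hst, rfl⟩
    · exfalso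
      refine hnc (-(s / t)) ?_
      rw [Algebra.smul_def, Algebra.smul_def, mul_one] at hst
      have ht' : algebraMap ℂ K t ≠ 0 := by simpa using ht
      rw [map_neg, map_div₀]
      field_simp
      linear_combination hst
  have hspan_le : Submodule.span ℂ (Set.range ![(1 : K), h]) ≤ MM x b 1 := by
    rw [Submodule.span_le]
    rintro _ ⟨i, rfl⟩
    fin_cases i
    · exact D.one_mem
    · exact hh
  have hspan_rank : finrank ℂ (Submodule.span ℂ (Set.range ![(1 : K), h])) = 2 := by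
    rw [finrank_span_eq_card hli]
    rfl
  have h2le : 2 ≤ finrank ℂ (MM x b 1) := by
    rw [← hspan_rank]
    exact Submodule.finrank_mono hspan_le
  have hV12 : finrank ℂ ((MM x b 1).map (EvL E b₀)) = 2 := by omega
  have hV23 := hV2 hV12
  have hM12 : finrank ℂ (MM x b 1) = 2 := by omega
  have hM25 : finrank ℂ (MM x b 2) ≤ 5 := by omega
  have heq : Submodule.span ℂ (Set.range ![(1 : K), h]) = MM x b 1 :=
    Submodule.eq_of_le_of_finrank_eq hspan_le (by rw [hspan_rank, hM12])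
  refine ⟨?_, ?_⟩
  · -- the map `(l, l') ↦ l + l' h`
    have := (hDim K ζ x D.cov).1 1
    let Φ : (AA x 1 × AA x 1) →ₗ[ℂ] MM x b 2 :=
      LinearMap.codRestrict _
        (((AA x 1).subtype.comp (LinearMap.fst ℂ _ _)) +
          (LinearMap.mulRight ℂ h).comp ((AA x 1).subtype.comp (LinearMap.snd ℂ _ _)))
        (by
          rintro ⟨l, l'⟩
          simp only [LinearMap.add_apply, LinearMap.comp_apply, LinearMap.fst_apply,
            LinearMap.snd_apply, Submodule.subtype_apply, LinearMap.mulRight_apply]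
          refine Submodule.add_mem _ ?_ (MM_mul hh l'.2)
          have := MM_mul D.one_mem l.2
          rwa [mul_one] at this)
    have hnot : ¬ Function.Injective Φ := by
      intro hinj
      have h1 := LinearMap.finrank_le_finrank_of_injective hinj
      rw [finrank_prod, (hDim K ζ x D.cov).2.2] at h1
      omega
    rw [← LinearMap.ker_eq_bot, Submodule.eq_bot_iff] at hnot
    push Not at hnot
    obtain ⟨⟨l, l'⟩, hker, hne⟩ := hnot
    have hker' : (l : K) + (l' : K) * h = 0 := by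
      have := congrArg Subtype.val (LinearMap.mem_ker.1 hker)
      simpa [Φ] using this
    have hl' : (l' : K) ≠ 0 := by
      intro h0
      rw [h0, zero_mul, add_zero] at hker'
      apply hne
      have e1 : l = 0 := Subtype.ext hker'
      have e2 : l' = 0 := Subtype.ext h0
      rw [e1, e2]
      rfl
    refine ⟨l', l'.2, hl', ?_⟩
    have : (l' : K) * h = -(l : K) := by linear_combination hker'
    rw [this]
    exact Submodule.neg_mem _ l.2
  · intro h' hh'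
    rw [← heq, Matrix.range_cons, Matrix.range_cons, Matrix.range_empty, Set.union_empty,
      Set.singleton_union, Submodule.mem_span_pair] at hh'
    obtain ⟨α, β, hab⟩ := hh'
    refine ⟨α, β, ?_⟩
    rw [← hab, Algebra.smul_def, Algebra.smul_def, mul_one]

end PW

open PW

theorem pf_W (hKer : StmtKer) (hLine : StmtLine) (hGen : StmtGen) (hPair : StmtPair)
    (hGrow : StmtGrow) (hDim : StmtDim) : StmtW := by
  intro K _ _ ζ x hcov b Bad hBad hle hmul hone hQ hgood h hh hnc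
  obtain ⟨Q, hQ4, hdim⟩ := hQ
  -- the element `b₀`
  have hbne : b Q ≠ ⊥ := by
    intro h0
    rw [h0, finrank_bot] at hdim
    omega
  obtain ⟨b₀, hb₀, hb₀ne⟩ := Submodule.exists_mem_ne_zero_of_ne_bot hbne
  obtain ⟨G₀, hG₀, hGb⟩ := mem_AA.1 (hle Q hb₀)
  have hFG : ¬ FF ∣ G₀ := by
    rintro ⟨H, rfl⟩
    apply hb₀ne
    rw [← hGb, map_mul, aeval_FF hcov, zero_mul]
  have hfin1 := hGen Q G₀ hG₀ hFG
  have hfin2 : {c : ℂ | c ^ 5 = -1}.Finite := by
    refine Set.Finite.subset (Multiset.toFinset (Polynomial.nthRoots 5 (-1 : ℂ))).finite_toSet ?_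
    intro c hc
    simp only [Finset.mem_coe, Multiset.mem_toFinset]
    exact (Polynomial.mem_nthRoots (by norm_num)).2 hc
  obtain ⟨c, hc⟩ := ((hBad.union hfin1).union hfin2).exists_notMem
  simp only [Set.mem_union, not_or] at hc
  obtain ⟨⟨hc1, hc2⟩, hc3⟩ := hc
  obtain ⟨ξ, hξ⟩ := IsAlgClosed.exists_pow_nat_eq (-(c ^ 5 + 1)) (n := 5) (by norm_num)
  have hξeq : ξ ^ 5 + c ^ 5 + 1 = 0 := by rw [hξ]; ring
  have hξne : ξ ≠ 0 := by
    rintro rfl
    apply hc3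
    show c ^ 5 = -1
    linear_combination hξeq
  have hpt : ∀ i : Fin 5, (ζ ^ (i : ℕ) * ξ) ^ 5 + c ^ 5 + 1 = 0 := by
    intro i
    rw [mul_pow, ← pow_mul, mul_comm (i : ℕ) 5, pow_mul, hcov.prim.pow_eq_one, one_pow, one_mul]
    exact hξeq
  obtain ⟨E, hE⟩ := exists_E hKer hcov (fun i => ![ζ ^ (i : ℕ) * ξ, c, 1]) (by
    intro i
    simp only [FF, Fin.sum_univ_three, map_add, map_pow, eval_X, Matrix.cons_val_zero,
      Matrix.cons_val_one, Matrix.cons_val]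
    have := hpt i
    rw [one_pow]
    exact this)
  have hev : Ev ζ x ξ c E := ⟨hξne, hξeq, hE⟩
  have D : Dat ζ x ξ c E b b₀ Q :=
    { cov := hcov
      ev := hev
      le := hle
      mul := hmul
      one := hone
      four := hQ4
      dim := hdim
      good := hgood c hc1
      mem := hb₀
      ne := hb₀ne
      ene := by
        intro i hi
        rw [← hGb, hE] at hi
        exact hc2 ⟨_, hpt i, hi⟩ }
  have hiff : ∀ g : K, (∀ q, 1 ≤ q → ∀ v ∈ b q, g * v ∈ AA x q) ↔ g ∈ MM x b 1 := by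
    intro g
    constructor
    · intro hg q v hv
      exact hg (q + 1) (by omega) v hv
    · intro hg q hq v hv
      obtain ⟨q', rfl⟩ : ∃ q', q = q' + 1 := ⟨q - 1, by omega⟩
      exact hg q' v hv
  obtain ⟨h1, h2⟩ := D.main hLine hDim hPair hGrow ((hiff h).1 hh) hnc
  exact ⟨h1, fun h' hh' => h2 h' ((hiff h').1 hh')⟩

end Pool.Agent.Helper64.Rig
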